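import Pool.Agent.H47.PT.Upper
import Pool.Agent.H47.PT.Lower2

/-!
# The planar Turán number of the symmetric theta graph on six vertices

`|ex_P(n, Θ) - 45 n / 17|` is bounded, for the 6-cycle with a long chord.

Upper bound: a discharging argument on an arbitrary rotation system of genus `0` (files
`Map`, `Local`, `Local4`, `Charge`, `Charge2`, `Charge3`, `Upper`), giving `17 e ≤ 45 n`.
Lower bound: the intervals of an explicit periodic map of a cylinder with 17 vertices and
45 edges per period (files `Table`, `Lower`, `Lower2`).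
-/

namespace Pool.Agent.Results.MP_2641fa_co.PlanarTuranTheta

open Pool.Agent.H47.PT

/-- The planar Turán number of the symmetric theta graph on six vertices is `45 n / 17 + O(1)`. -/
theorem result : ∃ C : ℝ, ∀ n : ℕ, |(exPlanar theta n : ℝ) - 45 / 17 * n| ≤ C := by
  have hup : ∀ n : ℕ, ∀ m ∈ {m : ℕ | ∃ G : SimpleGraph (Fin n), IsPlanar G ∧ theta.Free G ∧
      Nat.card G.edgeSet = m}, 17 * m ≤ 45 * n := by
    rintro n m ⟨G, h1, h2, rfl⟩
    have := upper G h1 h2
    rwa [Nat.card_eq_fintype_card (α := Fin n), Fintype.card_fin] at this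
  have hbdd : ∀ n : ℕ, BddAbove {m : ℕ | ∃ G : SimpleGraph (Fin n), IsPlanar G ∧ theta.Free G ∧
      Nat.card G.edgeSet = m} := by
    intro n
    refine ⟨45 * n, ?_⟩
    intro m hm
    have := hup n m hm
    omega
  have h1 : ∀ n : ℕ, 17 * exPlanar theta n ≤ 45 * n := by
    intro n
    unfold exPlanar
    rcases Set.eq_empty_or_nonempty {m : ℕ | ∃ G : SimpleGraph (Fin n), IsPlanar G ∧
      theta.Free G ∧ Nat.card G.edgeSet = m} with h | h
    · rw [h]
      simp
    · exact hup n _ (Nat.sSup_mem h (hbdd n))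
  have h2 : ∀ n : ℕ, 121 ≤ n → 45 * n ≤ 17 * exPlanar theta n + 480 := by
    intro n hn
    have h3 := edges_ge n (by omega)
    rw [← card_edges] at h3
    have h4 : Nat.card (GI n).edgeSet ≤ exPlanar theta n :=
      le_csSup (hbdd n) ⟨GI n, GI_planar hn, GI_free n, rfl⟩
    omega
  refine ⟨321, fun n => ?_⟩
  have h3 : (17 * exPlanar theta n : ℝ) ≤ 45 * n := by exact_mod_cast h1 n
  have h4 : (45 * n : ℝ) ≤ 17 * exPlanar theta n + 480 ∨ (n : ℝ) ≤ 121 := by
    rcases le_or_gt 121 n with h | h
    · left; exact_mod_cast h2 n h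
    · right; exact_mod_cast h.le
  have h5 : (0 : ℝ) ≤ exPlanar theta n := by positivity
  rw [abs_le]
  constructor
  · rcases h4 with h4 | h4 <;> linarith
  · linarith

end Pool.Agent.Results.MP_2641fa_co.PlanarTuranTheta
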